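import Pool.Agent.W_b58c63_h68.Fin

/-!
# Every large even number: a prime in the window with an almost prime partner

For every sufficiently large even number `2 n` there are at least `c √(2 n) / log ^ 2 (2 n)` primes `p` in the
interval `(√(2 n), 4 √(2 n))` such that `2 n - p` is a positive integer with at most five prime factors, counted
with multiplicity.
-/

set_option autoImplicit false

namespace Pool.Agent.Results.MP_b58c63_nt.AllLargeAlmostFive

open ArithmeticFunction

theorem result : ∃ c : ℝ, 0 < c ∧ ∃ n₀ : ℕ, ∀ n : ℕ, n₀ ≤ n →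
    c * Real.sqrt (2 * n) / Real.log (2 * n) ^ 2 ≤
      (Set.ncard {p : ℕ | p.Prime ∧ Real.sqrt (2 * n) < p ∧ (p : ℝ) < 4 * Real.sqrt (2 * n) ∧
        p < 2 * n ∧ cardFactors (2 * n - p) ≤ 5} : ℝ) := by
  obtain ⟨c, n₀, hc, h⟩ := Wb58c63.all_even
  refine ⟨c, hc, n₀, fun n hn => ?_⟩
  have h1 := h n hn
  have h2 : {p : ℕ | p.Prime ∧ Real.sqrt (2 * n) < p ∧ (p : ℝ) < 4 * Real.sqrt (2 * n) ∧
      p < 2 * n ∧ cardFactors (2 * n - p) ≤ 5} = (Wb58c63.gd n 5 : Set ℕ) := by
    ext p
    simp only [Wb58c63.gd, Set.mem_setOf_eq, Finset.coe_filter, Finset.mem_range, Nat.cast_mul,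
      Nat.cast_ofNat]
    tauto
  rw [h2, Set.ncard_coe_finset]
  simpa only [Nat.cast_mul, Nat.cast_ofNat] using h1

end Pool.Agent.Results.MP_b58c63_nt.AllLargeAlmostFive
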